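import Pool.Agent.helper71.DSW.SpecB

set_option autoImplicit false

namespace Pool.Agent.DSW

open Equiv Finset Function Pool.Agent.helper48.PP
open scoped ENNReal Classical

/-- The increasing enumeration of `X`. -/
noncomputable def GPC_en (n : ℕ) (X : Finset ℕ) (r : Fin n) : ℕ :=
  if h : X.card = n then X.orderEmbOfFin h r else 0

theorem GPC_en_strictMono {n : ℕ} {X : Finset ℕ} (h : X.card = n) : StrictMono (GPC_en n X) := by
  intro r s hrs
  simp only [GPC_en, h, dif_pos]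
  exact (X.orderEmbOfFin h).strictMono hrs

theorem GPC_en_mem {n : ℕ} {X : Finset ℕ} (h : X.card = n) (r : Fin n) : GPC_en n X r ∈ X := by
  simp only [GPC_en, h, dif_pos]
  exact X.orderEmbOfFin_mem h r

theorem GPC_en_surj {n : ℕ} {X : Finset ℕ} (h : X.card = n) {x : ℕ} (hx : x ∈ X) :
    ∃ r, GPC_en n X r = x := by
  have h1 : x ∈ Set.range (X.orderEmbOfFin h) := by
    rw [X.range_orderEmbOfFin h]
    exact hx
  obtain ⟨r, hr⟩ := h1
  refine ⟨r, ?_⟩
  simp only [GPC_en, h, dif_pos]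
  exact hr

/-- The set of points with columns `X`, rows `Y` and pattern `w`. -/
noncomputable def GPC_pts {n : ℕ} (X Y : Finset ℕ) (w : Perm (Fin n)) : Finset (ℕ × ℕ) :=
  Finset.univ.image fun r : Fin n => (GPC_en n X r, GPC_en n Y (w r))

theorem GPC_mem_pts {n : ℕ} {X Y : Finset ℕ} {w : Perm (Fin n)} {z : ℕ × ℕ} :
    z ∈ GPC_pts X Y w ↔ ∃ r : Fin n, (GPC_en n X r, GPC_en n Y (w r)) = z := by
  simp [GPC_pts]

theorem GPC_pts_card {n : ℕ} {X Y : Finset ℕ} (w : Perm (Fin n)) (hX : X.card = n) :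
    (GPC_pts X Y w).card = n := by
  unfold GPC_pts
  rw [card_image_of_injective]
  · simp
  · intro r s hrs
    exact (GPC_en_strictMono hX).injective (congrArg Prod.fst hrs)

theorem GPC_pts_GP {n : ℕ} {X Y : Finset ℕ} (w : Perm (Fin n)) (hX : X.card = n) (hY : Y.card = n) :
    GP (GPC_pts X Y w) := by
  intro u hu v hv huv
  obtain ⟨r, rfl⟩ := GPC_mem_pts.mp hu
  obtain ⟨s, rfl⟩ := GPC_mem_pts.mp hv
  have hrs : r = s := by
    rcases huv with h | h
    · exact (GPC_en_strictMono hX).injective h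
    · exact w.injective ((GPC_en_strictMono hY).injective h)
  rw [hrs]

theorem GPC_pts_fst {n : ℕ} {X Y : Finset ℕ} (w : Perm (Fin n)) (hX : X.card = n) :
    (GPC_pts X Y w).image Prod.fst = X := by
  ext x
  simp only [mem_image, GPC_mem_pts]
  constructor
  · rintro ⟨z, ⟨r, rfl⟩, rfl⟩
    exact GPC_en_mem hX r
  · intro hx
    obtain ⟨r, hr⟩ := GPC_en_surj hX hx
    exact ⟨_, ⟨r, rfl⟩, hr⟩

theorem GPC_pts_snd {n : ℕ} {X Y : Finset ℕ} (w : Perm (Fin n)) (hY : Y.card = n) :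
    (GPC_pts X Y w).image Prod.snd = Y := by
  ext y
  simp only [mem_image, GPC_mem_pts]
  constructor
  · rintro ⟨z, ⟨r, rfl⟩, rfl⟩
    exact GPC_en_mem hY (w r)
  · intro hy
    obtain ⟨r, hr⟩ := GPC_en_surj hY hy
    refine ⟨_, ⟨w.symm r, rfl⟩, ?_⟩
    simpa using hr

theorem GPC_pts_inj {n : ℕ} {X Y X' Y' : Finset ℕ} {w w' : Perm (Fin n)} (hX : X.card = n)
    (hY : Y.card = n) (hX' : X'.card = n) (hY' : Y'.card = n) (h : GPC_pts X Y w = GPC_pts X' Y' w') :
    X = X' ∧ Y = Y' ∧ w = w' := by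
  have h1 : X = X' := by
    rw [← GPC_pts_fst (Y := Y) w hX, h, GPC_pts_fst w' hX']
  have h2 : Y = Y' := by
    rw [← GPC_pts_snd (X := X) w hY, h, GPC_pts_snd w' hY']
  subst h1 h2
  refine ⟨rfl, rfl, ?_⟩
  ext r : 1
  have h3 : (GPC_en n X r, GPC_en n Y (w r)) ∈ GPC_pts X Y w' := by
    rw [← h]
    exact GPC_mem_pts.mpr ⟨r, rfl⟩
  obtain ⟨s, hs⟩ := GPC_mem_pts.mp h3
  have h4 : s = r := (GPC_en_strictMono hX).injective (congrArg Prod.fst hs)
  have h5 : w' s = w r := (GPC_en_strictMono hY).injective (congrArg Prod.snd hs)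
  rw [← h5, h4]

theorem GPC_pts_has {k n : ℕ} {X Y : Finset ℕ} {w : Perm (Fin n)} (τ : Perm (Fin k)) (hX : X.card = n)
    (hY : Y.card = n) : Has τ (GPC_pts X Y w) ↔ Contains w τ := by
  have mX := GPC_en_strictMono hX
  have mY := GPC_en_strictMono hY
  constructor
  · rintro ⟨x, y, hx, hy, hxy⟩
    choose f hf using fun j => GPC_mem_pts.mp (hxy j)
    have h1 : ∀ j, GPC_en n X (f j) = x j := fun j => congrArg Prod.fst (hf j)
    have h2 : ∀ j, GPC_en n Y (w (f j)) = y (τ j) := fun j => congrArg Prod.snd (hf j)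
    refine ⟨f, ?_, ?_⟩
    · intro s t hst
      rw [← mX.lt_iff_lt, h1, h1]
      exact hx hst
    · intro s t
      rw [← mY.lt_iff_lt, h2, h2, hy.lt_iff_lt]
  · rintro ⟨f, hf, hfw⟩
    refine ⟨fun j => GPC_en n X (f j), fun v => GPC_en n Y (w (f (τ.symm v))), mX.comp hf, ?_, ?_⟩
    · intro u v huv
      refine mY ?_
      rw [hfw]
      simpa using huv
    · intro j
      refine GPC_mem_pts.mpr ⟨f j, ?_⟩
      simp

theorem GPC_exists {n : ℕ} {S : Finset (ℕ × ℕ)} (hS : GP S) (hn : S.card = n) :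
    ∃ w : Perm (Fin n), (S.image Prod.fst).card = n ∧ (S.image Prod.snd).card = n ∧
      GPC_pts (S.image Prod.fst) (S.image Prod.snd) w = S := by
  have hX : (S.image Prod.fst).card = n := by
    rw [card_image_of_injOn, hn]
    intro u hu v hv huv
    exact hS u hu v hv (Or.inl huv)
  have hY : (S.image Prod.snd).card = n := by
    rw [card_image_of_injOn, hn]
    intro u hu v hv huv
    exact hS u hu v hv (Or.inr huv)
  have h1 : ∀ r : Fin n, ∃ v : Fin n,
      (GPC_en n (S.image Prod.fst) r, GPC_en n (S.image Prod.snd) v) ∈ S := by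
    intro r
    have h2 := GPC_en_mem hX r
    obtain ⟨z, hz, hz1⟩ := mem_image.mp h2
    obtain ⟨v, hv⟩ := GPC_en_surj hY (mem_image_of_mem Prod.snd hz)
    refine ⟨v, ?_⟩
    rw [hv, ← hz1]
    exact hz
  choose v hv using h1
  have hvi : Function.Injective v := by
    intro r s hrs
    have h2 := hS _ (hv r) _ (hv s) (Or.inr (by simp only [hrs]))
    exact (GPC_en_strictMono hX).injective (congrArg Prod.fst h2)
  have hvb : Function.Bijective v := Finite.injective_iff_bijective.mp hvi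
  refine ⟨Equiv.ofBijective v hvb, hX, hY, ?_⟩
  refine eq_of_subset_of_card_le ?_ ?_
  · intro z hz
    obtain ⟨r, rfl⟩ := GPC_mem_pts.mp hz
    exact hv r
  · rw [GPC_pts_card _ hX, hn]

theorem GPC : GPC_stmt := by
  intro k τ M M' n
  have hc : M.choose n * M'.choose n *
      (Finset.univ.filter fun w : Perm (Fin n) => Contains w τ).card =
      ((((Finset.range M).powersetCard n) ×ˢ ((Finset.range M').powersetCard n)) ×ˢ
        (Finset.univ.filter fun w : Perm (Fin n) => Contains w τ)).card := by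
    rw [card_product, card_product, card_powersetCard, card_powersetCard, card_range, card_range]
  rw [hc]
  symm
  refine card_bij (fun q _ => GPC_pts q.1.1 q.1.2 q.2) ?_ ?_ ?_
  · rintro ⟨⟨X, Y⟩, w⟩ hq
    simp only [mem_product, mem_powersetCard, mem_filter, mem_univ, true_and] at hq
    obtain ⟨⟨⟨hXs, hX⟩, hYs, hY⟩, hw⟩ := hq
    simp only [mem_filter, mem_powerset]
    refine ⟨?_, GPC_pts_GP w hX hY, GPC_pts_card w hX, (GPC_pts_has τ hX hY).mpr hw⟩
    intro z hz
    obtain ⟨r, rfl⟩ := GPC_mem_pts.mp hz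
    exact mem_product.mpr ⟨hXs (GPC_en_mem hX r), hYs (GPC_en_mem hY (w r))⟩
  · rintro ⟨⟨X, Y⟩, w⟩ hq ⟨⟨X', Y'⟩, w'⟩ hq' h
    simp only [mem_product, mem_powersetCard, mem_filter, mem_univ, true_and] at hq hq'
    obtain ⟨h1, h2, h3⟩ := GPC_pts_inj hq.1.1.2 hq.1.2.2 hq'.1.1.2 hq'.1.2.2 h
    have h4 : w = w' := h3
    rw [h1, h2, h4]
  · intro S hS
    simp only [mem_filter, mem_powerset] at hS
    obtain ⟨hSs, hGP, hn, hH⟩ := hS
    obtain ⟨w, hX, hY, hw⟩ := GPC_exists hGP hn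
    refine ⟨((S.image Prod.fst, S.image Prod.snd), w), ?_, hw⟩
    simp only [mem_product, mem_powersetCard, mem_filter, mem_univ, true_and]
    refine ⟨⟨⟨?_, hX⟩, ?_, hY⟩, ?_⟩
    · intro x hx
      obtain ⟨z, hz, rfl⟩ := mem_image.mp hx
      exact (mem_product.mp (hSs hz)).1
    · intro y hy
      obtain ⟨z, hz, rfl⟩ := mem_image.mp hy
      exact (mem_product.mp (hSs hz)).2
    · rw [← GPC_pts_has τ hX hY, hw]
      exact hH

end Pool.Agent.DSW
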